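import Pool.Agent.Y581.Look.Main

/-!
# The approximation ratio of the `k`-lookahead auction does not tend to one

`ρ_k ≤ 4 / 5` for every `k ≥ 2`. In the instance the first bidder has the value `2` or a huge value,
`k - 1` bidders have values close to `1` that encode labels, and the last bidder has the value `1`.
If the sum of the labels is even, then the value of the first bidder is `2` with high probability,
but the optimal mechanism offers her the item at the huge price and sells it otherwise to the last
bidder. If the sum is odd then the value of the first bidder is `2`. The lookahead mechanism cannot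
use any label bidder as a substitute for the last bidder: as allocations are monotone, she would also
have to get the item after an increase of her label by one, when the first bidder should pay `2`.
-/

set_option autoImplicit false

namespace Pool.Agent.Results.MP_0f9109_lc.RatioAtMostFourFifths

open Pool.Agent.Y581.Look

theorem result :
    (∀ k : ℕ, 2 ≤ k → ∀ ε : ℝ, 0 < ε →
      ∃ (n : ℕ) (D : ValueLaw (Fin n)), 0 < OPT D ∧
        (∃ A : (K : Finset (Fin n)) → ({j // j ∉ K} → ℝ) → Mechanism K, IsLookahead k D A) ∧
        ∀ A : (K : Finset (Fin n)) → ({j // j ∉ K} → ℝ) → Mechanism K, IsLookahead k D A →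
          lookRevenue k D A ≤ (4 / 5 + ε) * OPT D) ∧
    (∀ k : ℕ, 2 ≤ k → rho k ≤ ((4 / 5 : ℝ) : EReal)) ∧
    ¬ Filter.Tendsto rho Filter.atTop (nhds 1) :=
  ⟨fun k hk _ hε => exists_instance k hk hε, rho_le, not_tendsto⟩

end Pool.Agent.Results.MP_0f9109_lc.RatioAtMostFourFifths
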